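import Pool.Agent.H8.AV3.Stmts4
import Pool.Agent.H31.AVS.EQP

/-!
# AV3B, module EQP3: equidistribution of the forms of bounded degrees
-/

set_option autoImplicit false

namespace Pool.Agent.H84.AV3B

open Polynomial Matrix Pool.AVR Pool.AV3

/-- The forms of bounded degrees. -/
def GG (F : Type) [Field F] (Nn : Fin 10 → ℕ) : AddSubgroup (Fin 10 → F[X]) where
  carrier := {c | ∀ i, (c i).natDegree ≤ Nn i}
  zero_mem' := fun i => by simp
  add_mem' := by
    intro a b ha hb i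
    exact (natDegree_add_le _ _).trans (max_le (ha i) (hb i))
  neg_mem' := by
    intro a ha i
    show (-(a i)).natDegree ≤ Nn i
    rw [natDegree_neg]
    exact ha i

/-- The forms of bounded degrees, coefficient by coefficient. -/
def GGequiv (F : Type) [Field F] (Nn : Fin 10 → ℕ) :
    GG F Nn ≃ ((i : Fin 10) → {p : F[X] | p.natDegree ≤ Nn i}) where
  toFun c := fun i => ⟨c.1 i, c.2 i⟩
  invFun c := ⟨fun i => (c i).1, fun i => (c i).2⟩
  left_inv _ := rfl
  right_inv _ := rfl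

theorem GG_finite (F : Type) [Field F] [Finite F] (Nn : Fin 10 → ℕ) : Finite (GG F Nn) := by
  have : ∀ i, Finite {p : F[X] | p.natDegree ≤ Nn i} := fun i => (EQB_poly F _).1
  exact Finite.of_equiv _ (GGequiv F Nn).symm

theorem GG_card (F : Type) [Field F] [Finite F] (Nn : Fin 10 → ℕ) :
    Nat.card (GG F Nn) = Nat.card F ^ (∑ i, (Nn i + 1)) := by
  rw [Nat.card_congr (GGequiv F Nn), Nat.card_pi, ← Finset.prod_pow_eq_pow_sum]
  exact Finset.prod_congr rfl fun i _ => (EQB_poly F _).2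

/-- The reduction map. -/
noncomputable def psi (F : Type) [Field F] (Nn : Fin 10 → ℕ) (T : Finset F[X]) (N : ℕ) :
    GG F Nn →+ ((M : {M // M ∈ T}) → (Fin 10 → AdjoinRoot M.1)) ×
      (Fin 10 → AdjoinRoot ((X : F[X]) ^ N)) where
  toFun c := (fun M => md M.1 c.1, fun i => AdjoinRoot.mk (X ^ N) ((c.1 i).reflect (Nn i)))
  map_zero' := by
    refine Prod.ext (funext fun M => funext fun i => ?_) (funext fun i => ?_)
    · simp [md]
    · simp
  map_add' A B := by
    refine Prod.ext (funext fun M => funext fun i => ?_) (funext fun i => ?_)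
    · simp [md]
    · simp [reflect_add]

theorem psi_surj (F : Type) [Field F] (Nn : Fin 10 → ℕ) (T : Finset F[X]) (N : ℕ)
    (hm : ∀ M ∈ T, M.Monic) (hT : ∀ M ∈ T, ∀ M' ∈ T, M ≠ M' → IsCoprime M M')
    (hK : ∀ i, (∑ M ∈ T, M.natDegree) + N ≤ Nn i + 1) :
    Function.Surjective (psi F Nn T N) := by
  classical
  rintro ⟨w, v⟩
  let r : Fin 10 → (M : F[X]) → AdjoinRoot M := fun i M =>
    if h : M ∈ T then w ⟨M, h⟩ i else 0
  have hr : ∀ i (M : {M // M ∈ T}), r i M.1 = w M i := by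
    intro i M
    show (if h : M.1 ∈ T then w ⟨M.1, h⟩ i else 0) = w M i
    rw [dif_pos M.2]
  have hex : ∀ i, ∃ p : F[X], p.natDegree ≤ Nn i ∧ (∀ M ∈ T, AdjoinRoot.mk M p = r i M) ∧
      AdjoinRoot.mk (X ^ N) (p.reflect (Nn i)) = v i := fun i =>
    Pool.AVS.EQP.surj T hm hT N (Nn i) (hK i) (r i) (v i)
  choose p hp1 hp2 hp3 using hex
  refine ⟨⟨p, hp1⟩, ?_⟩
  refine Prod.ext (funext fun M => funext fun i => ?_) (funext fun i => ?_)
  · show AdjoinRoot.mk M.1 (p i) = w M i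
    rw [hp2 i M.1 M.2, hr]
  · exact hp3 i

theorem eqp3_thm : Pool.AV3.EQP3Stmt := by
  classical
  intro F _ _ n α β N T hN hmon hcop hdeg Φ Ψ
  let Nn : Fin 10 → ℕ := fun i => (ee n (dv α β) i).toNat
  have hee : ∀ i, ee n (dv α β) i = (n : ℤ) + ∑ s, dv α β (tr i s) - (2 * α + β) := by
    intro i
    rw [ee]
    congr 1
    simp [Fin.sum_univ_three, dv]
    ring
  have hdv : ∀ j, 0 ≤ dv α β j := by
    intro j
    fin_cases j <;> simp [dv]
    positivity
  have hs0 : ∀ i, 0 ≤ ∑ s, dv α β (tr i s) := fun i => Finset.sum_nonneg fun s _ => hdv _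
  have hNn : ∀ i, ((Nn i : ℕ) : ℤ) = ee n (dv α β) i := by
    intro i
    apply Int.toNat_of_nonneg
    have h1 := hee i
    have h2 := hs0 i
    omega
  have hNlow : ∀ i, (∑ M ∈ T, M.natDegree) + N ≤ Nn i + 1 := by
    intro i
    have h1 := hee i
    have h2 := hs0 i
    have h3 := hNn i
    omega
  have hVd : (Vd n (dv α β) : Set (Fin 10 → F[X])) = (GG F Nn : Set (Fin 10 → F[X])) := by
    ext c
    constructor
    · intro h i
      by_cases h0 : c i = 0
      · rw [h0]; simp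
      · have h1 := h i h0
        have h2 : ((c i).natDegree : ℤ) ≤ (Nn i : ℕ) := by
          rw [hNn i]
          exact h1
        exact_mod_cast h2
    · intro h i _
      have h2 : ((c i).natDegree : ℤ) ≤ (Nn i : ℕ) := by exact_mod_cast h i
      rw [hNn i] at h2
      exact h2
  have hGf : Finite (GG F Nn) := GG_finite F Nn
  have hadj : ∀ M : {M // M ∈ T}, Finite (AdjoinRoot M.1) := fun M =>
    (EQB_adj F M.1 (hmon M.1 M.2).ne_zero).1
  have hadX : Finite (AdjoinRoot ((X : F[X]) ^ N)) := (EQB_adj F _ (monic_X_pow N).ne_zero).1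
  have : Fintype (GG F Nn) := Fintype.ofFinite _
  have : ∀ M : {M // M ∈ T}, Fintype (AdjoinRoot M.1) := fun M => Fintype.ofFinite _
  have : Fintype (AdjoinRoot ((X : F[X]) ^ N)) := Fintype.ofFinite _
  have hG : Nat.card (GG F Nn) = Nat.card F ^ (10 * n + 10) := by
    rw [GG_card]
    congr 1
    have h1 : ((∑ i, (Nn i + 1) : ℕ) : ℤ) = ((10 * n + 10 : ℕ) : ℤ) := by
      push_cast
      rw [Finset.sum_congr rfl fun i _ => by rw [hNn i, ee]]
      simp [Fin.sum_univ_succ, dv, tr]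
      ring
    exact_mod_cast h1
  refine ⟨by rw [hVd]; exact Set.toFinite _, ?_⟩
  have hq : (0 : ℝ) < (Nat.card F : ℝ) := by exact_mod_cast Nat.card_pos
  have hL : ∑ᶠ c ∈ (Vd n (dv α β) : Set (Fin 10 → F[X])),
        (∏ M ∈ T, Φ M (md M c)) * Ψ (md (X ^ N) (cinf n (dv α β) c)) =
      ∑ c : GG F Nn, (∏ M : {M // M ∈ T}, Φ M.1 ((psi F Nn T N c).1 M)) *
        Ψ (psi F Nn T N c).2 := by
    rw [hVd, ← finsum_set_coe_eq_finsum_mem, finsum_eq_sum_of_fintype]
    apply Finset.sum_congr rfl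
    intro c _
    congr 1
    rw [← Finset.prod_coe_sort]
    rfl
  have hmain := Pool.AVS.EQP.sum_fib (psi F Nn T N) (psi_surj F Nn T N hmon hcop hNlow)
    (fun y => (∏ M : {M // M ∈ T}, Φ M.1 (y.1 M)) * Ψ y.2)
  have hR : ∑ y : ((M : {M // M ∈ T}) → (Fin 10 → AdjoinRoot M.1)) ×
        (Fin 10 → AdjoinRoot ((X : F[X]) ^ N)),
        (∏ M : {M // M ∈ T}, Φ M.1 (y.1 M)) * Ψ y.2 =
      (∏ M ∈ T, ∑ᶠ c : Fin 10 → AdjoinRoot M, Φ M c) *
        ∑ᶠ c : Fin 10 → AdjoinRoot ((X : F[X]) ^ N), Ψ c := by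
    have h1 : ∀ M : {M // M ∈ T},
        ∑ᶠ c : Fin 10 → AdjoinRoot M.1, Φ M.1 c = ∑ c : Fin 10 → AdjoinRoot M.1, Φ M.1 c :=
      fun M => finsum_eq_sum_of_fintype _
    rw [finsum_eq_sum_of_fintype, ← Finset.prod_coe_sort, Finset.prod_congr rfl fun M _ => h1 M,
      Finset.prod_univ_sum, Fintype.piFinset_univ, Finset.sum_mul_sum, Fintype.sum_prod_type]
  have hcard : Nat.card (((M : {M // M ∈ T}) → (Fin 10 → AdjoinRoot M.1)) ×
      (Fin 10 → AdjoinRoot ((X : F[X]) ^ N))) =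
      (∏ M ∈ T, Nat.card F ^ (10 * M.natDegree)) * Nat.card F ^ (10 * N) := by
    rw [Nat.card_prod, Nat.card_pi, Nat.card_fun, (EQB_adj F _ (monic_X_pow N).ne_zero).2,
      natDegree_X_pow, ← Finset.prod_coe_sort T (fun M => Nat.card F ^ (10 * M.natDegree))]
    congr 1
    · apply Finset.prod_congr rfl
      intro M _
      rw [Nat.card_fun, (EQB_adj F M.1 (hmon M.1 M.2).ne_zero).2, ← pow_mul, mul_comm]
      simp
    · rw [← pow_mul, mul_comm]
      simp
  rw [hcard, hG, hR, ← hL] at hmain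
  push_cast at hmain
  rw [Finset.prod_div_distrib]
  have hp1 : (0 : ℝ) < ∏ M ∈ T, (Nat.card F : ℝ) ^ (10 * M.natDegree) :=
    Finset.prod_pos fun M _ => pow_pos hq _
  have hp2 : (0 : ℝ) < (Nat.card F : ℝ) ^ (10 * N) := pow_pos hq _
  field_simp
  linear_combination hmain

end Pool.Agent.H84.AV3B
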