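import Pool.Agent.H8.AV3.Stmts4
import Pool.Agent.H87.AVR.ZET

/-!
# AV3B, module ZE3: the Euler product at 3
-/

set_option autoImplicit false

namespace Pool.Agent.H84.AV3B

open Polynomial Pool.AVR

open ZET

open Classical in
/-- The lower bound for the Euler product. -/
theorem euler3 {F : Type} [Field F] [Fintype F] (q : ℝ) (hq : 1 < q)
    (hqF : (Fintype.card F : ℝ) = q) (D : ℕ)
    (S : Finset F[X]) (hm : ∀ P ∈ S, P.Monic ∧ Irreducible P)
    (hS : ∀ P : F[X], P.Monic → Irreducible P → P.natDegree ≤ D → P ∈ S) :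
    ∑ d ∈ Finset.range (D + 1), (1 / q ^ 2) ^ d ≤
      ∏ P ∈ S, ∑ k ∈ Finset.range (D + 1), (1 / q ^ (3 * P.natDegree)) ^ k := by
  have hq0 : 0 < q := by linarith
  let T : Finset ((d : ℕ) × (Fin d → F)) :=
    (Finset.range (D + 1)).sigma (fun _ => Finset.univ)
  let Φ : ((d : ℕ) × (Fin d → F)) → (S → ℕ) := fun t P => ex (mon t.1 t.2) P
  let wt : (S → ℕ) → ℝ := fun κ => ∏ P : S, (1 / q ^ (3 * (P : F[X]).natDegree)) ^ κ P
  have hT : ∀ t ∈ T, t.1 ≤ D := by
    intro t ht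
    have := (Finset.mem_sigma.1 ht).1
    rw [Finset.mem_range] at this
    omega
  have hS' : ∀ t ∈ T, ∀ P : F[X], P.Monic → Irreducible P →
      P.natDegree ≤ (mon t.1 t.2).natDegree → P ∈ S := by
    intro t ht P h1 h2 h3
    rw [mon_natDegree] at h3
    exact hS P h1 h2 (h3.trans (hT t ht))
  have hinj : Set.InjOn Φ (T : Set ((d : ℕ) × (Fin d → F))) := by
    intro t ht t' ht' h
    have h1 := ex_prod S (mon t.1 t.2) (mon_monic _ _) (hS' t ht)
    have h2 := ex_prod S (mon t'.1 t'.2) (mon_monic _ _) (hS' t' ht')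
    have h3 : mon t.1 t.2 = mon t'.1 t'.2 := by
      rw [h1, h2]
      apply Finset.prod_congr rfl
      intro P hP
      have : ex (mon t.1 t.2) P = ex (mon t'.1 t'.2) P := congrFun h ⟨P, hP⟩
      rw [this]
    exact mon_inj h3
  have hwt : ∀ t ∈ T, wt (Φ t) = (1 / q ^ 3) ^ t.1 := by
    intro t ht
    have h1 := ex_deg S (mon t.1 t.2) (mon_monic _ _) (fun P hP => (hm P hP).1) (hS' t ht)
    rw [mon_natDegree] at h1
    show ∏ P : S, (1 / q ^ (3 * (P : F[X]).natDegree)) ^ (ex (mon t.1 t.2) P) = _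
    rw [Finset.prod_coe_sort S (fun P => (1 / q ^ (3 * P.natDegree)) ^ (ex (mon t.1 t.2) P))]
    conv_rhs => rw [h1]
    rw [← Finset.prod_pow_eq_pow_sum]
    apply Finset.prod_congr rfl
    intro P _
    rw [pow_mul q 3, ← one_div_pow, ← pow_mul, mul_comm]
  have hmem : ∀ t ∈ T, Φ t ∈ Fintype.piFinset (fun _ : S => Finset.range (D + 1)) := by
    intro t ht
    rw [Fintype.mem_piFinset]
    intro P
    rw [Finset.mem_range]
    have h1 := ex_deg S (mon t.1 t.2) (mon_monic _ _) (fun P hP => (hm P hP).1) (hS' t ht)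
    rw [mon_natDegree] at h1
    have h2 : ex (mon t.1 t.2) P * (P : F[X]).natDegree ≤ t.1 := by
      conv_rhs => rw [h1]
      exact Finset.single_le_sum (f := fun P : F[X] => ex (mon t.1 t.2) P * P.natDegree)
        (fun _ _ => Nat.zero_le _) P.2
    have h3 : 1 ≤ (P : F[X]).natDegree := (hm P P.2).2.natDegree_pos
    have h4 := hT t ht
    have h5 : ex (mon t.1 t.2) P * 1 ≤ ex (mon t.1 t.2) P * (P : F[X]).natDegree :=
      Nat.mul_le_mul_left _ h3
    show ex (mon t.1 t.2) P < D + 1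
    omega
  have hprod : ∏ P ∈ S, ∑ k ∈ Finset.range (D + 1), (1 / q ^ (3 * P.natDegree)) ^ k =
      ∑ κ ∈ Fintype.piFinset (fun _ : S => Finset.range (D + 1)), wt κ := by
    rw [← Finset.prod_coe_sort S
      (fun P => ∑ k ∈ Finset.range (D + 1), (1 / q ^ (3 * P.natDegree)) ^ k)]
    rw [Finset.prod_univ_sum]
  have hsum : ∑ t ∈ T, wt (Φ t) = ∑ d ∈ Finset.range (D + 1), (1 / q ^ 2) ^ d := by
    rw [Finset.sum_congr rfl hwt, Finset.sum_sigma]
    apply Finset.sum_congr rfl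
    intro d _
    show ∑ _c : Fin d → F, (1 / q ^ 3) ^ d = (1 / q ^ 2) ^ d
    rw [Finset.sum_const, Finset.card_univ, Fintype.card_fun, Fintype.card_fin, nsmul_eq_mul]
    push_cast
    rw [hqF, ← mul_pow]
    congr 1
    field_simp
  rw [hprod, ← hsum, ← Finset.sum_image hinj]
  apply Finset.sum_le_sum_of_subset_of_nonneg
  · intro κ hκ
    obtain ⟨t, ht, rfl⟩ := Finset.mem_image.1 hκ
    exact hmem t ht
  · intro κ _ _
    apply Finset.prod_nonneg
    intro P _
    positivity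

theorem ze3_thm : Pool.AV3.ZE3Stmt := by
  classical
  intro F _ _ ε hε
  have : Fintype F := Fintype.ofFinite F
  set q : ℝ := (Nat.card F : ℝ) with hq
  have hqF : (Fintype.card F : ℝ) = q := by rw [hq, Nat.card_eq_fintype_card]
  have hq1 : 1 < q := by
    rw [hq]
    exact_mod_cast Finite.one_lt_card
  have hq0 : 0 < q := by linarith
  have hq2 : 1 < q ^ 2 := one_lt_pow₀ hq1 (by norm_num)
  have hiq : 1 / q ^ 2 < 1 := by rw [div_lt_one (by positivity)]; exact hq2
  have hiq0 : 0 < 1 / q ^ 2 := by positivity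
  -- choice of `D`
  obtain ⟨D, hD⟩ := exists_pow_lt_of_lt_one (show 0 < ε / (1 + ε) by positivity) hiq
  refine ⟨D, fun S hm hS => ?_⟩
  have key := euler3 q hq1 hqF D S hm hS
  set G : ℝ := ∑ d ∈ Finset.range (D + 1), (1 / q ^ 2) ^ d with hG
  have hGv : G = (1 - (1 / q ^ 2) ^ (D + 1)) / (1 - 1 / q ^ 2) := by
    rw [hG, geom_sum_eq hiq.ne, ← neg_div_neg_eq]
    ring
  have hδ : (1 / q ^ 2) ^ (D + 1) ≤ ε / (1 + ε) := by
    refine le_trans ?_ hD.le
    exact pow_le_pow_of_le_one hiq0.le hiq.le (Nat.le_succ D)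
  have hδ0 : 0 < (1 / q ^ 2) ^ (D + 1) := by positivity
  have hε1 : ε / (1 + ε) < 1 := by
    rw [div_lt_one (by positivity)]
    linarith
  have hG0 : 0 < G := by
    rw [hGv]
    apply div_pos <;> linarith
  -- each factor
  have hx : ∀ P ∈ S, 0 < 1 / q ^ (3 * P.natDegree) ∧ 1 / q ^ (3 * P.natDegree) < 1 := by
    intro P hP
    have h3 : 1 ≤ P.natDegree := (hm P hP).2.natDegree_pos
    refine ⟨by positivity, ?_⟩
    rw [div_lt_one (by positivity)]
    exact one_lt_pow₀ hq1 (by omega)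
  have hfac : ∀ P ∈ S, ∑ k ∈ Finset.range (D + 1), (1 / q ^ (3 * P.natDegree)) ^ k ≤
      (1 - 1 / q ^ (3 * P.natDegree))⁻¹ := by
    intro P hP
    obtain ⟨h1, h2⟩ := hx P hP
    rw [geom_sum_eq h2.ne, ← neg_div_neg_eq, inv_eq_one_div]
    rw [div_le_div_iff₀ (by linarith) (by linarith)]
    have h4 : 0 < (1 / q ^ (3 * P.natDegree)) ^ (D + 1) := by positivity
    nlinarith
  have hprod : G ≤ (∏ P ∈ S, (1 - 1 / q ^ (3 * P.natDegree)))⁻¹ := by
    refine key.trans ?_
    rw [← Finset.prod_inv_distrib]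
    apply Finset.prod_le_prod
    · intro P hP
      apply Finset.sum_nonneg
      intro k _
      positivity
    · exact hfac
  have hPi0 : 0 < ∏ P ∈ S, (1 - 1 / q ^ (3 * P.natDegree)) := by
    apply Finset.prod_pos
    intro P hP
    have := (hx P hP).2
    linarith
  have h5 : ∏ P ∈ S, (1 - 1 / q ^ (3 * P.natDegree)) ≤ G⁻¹ := by
    rw [← inv_inv (∏ P ∈ S, (1 - 1 / q ^ (3 * P.natDegree)))]
    exact inv_anti₀ hG0 hprod
  refine h5.trans ?_
  rw [hGv, inv_div, div_le_iff₀ (by linarith)]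
  have h6 : (1 / q ^ 2) ^ (D + 1) * (1 + ε) ≤ ε := by
    rwa [le_div_iff₀ (by positivity)] at hδ
  nlinarith

end Pool.Agent.H84.AV3B
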